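import Mathlib.Data.Nat.Notation

/-!
# Kernel-friendly evaluation of a residue certificate
-/

namespace Pool.Agent.H95.FiveX

/-- Case distinction on a Boolean, in a form that the kernel evaluates fast. -/
@[reducible] noncomputable def bc {α : Type} (b : Bool) (x y : α) : α := @Bool.rec (fun _ => α) y x b

/-- Evaluate the argument before passing it on. -/
@[reducible] noncomputable def forceN (x : ℕ) (f : ℕ → Bool) : Bool :=
  @Nat.rec (fun _ => Bool) (f 0) (fun n _ => f (Nat.succ n)) x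

/-- A binary search tree with large numbers at its leaves. -/
inductive BT : Type
  | leaf : ℕ → BT
  | node : ℕ → BT → BT → BT

/-- Look up the block with index `i`. -/
noncomputable def BT.get (t : BT) : ℕ → ℕ :=
  @BT.rec (fun _ => ℕ → ℕ) (fun n _ => n) (fun s _ _ gl gr i => bc (Nat.ble s i) (gr i) (gl i)) t

/-- Entry `i` of a table of 16-bit numbers stored in blocks of `S` entries. -/
@[reducible] noncomputable def ent (S : ℕ) (t : BT) (i : ℕ) : ℕ :=
  Nat.mod (Nat.shiftRight (t.get (Nat.div i S)) (Nat.mul 16 (Nat.mod i S))) 65536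

/-- The check at one index. Here `m = 5 ^ K` and `m' = m / 5`. -/
noncomputable def checkOne (S m m' : ℕ) (tw tu : BT) (A B0 B1 B2 B3 D : ℕ) (i : ℕ) : Bool :=
  forceN (ent S tw i) fun wi =>
  forceN (Nat.mod (Nat.add (Nat.mul 2 i) 1) m) fun c =>
  forceN (Nat.mod c 5) fun d =>
  bc (Nat.ble 1 wi) (bc (Nat.ble (ent S tu (Nat.mod i m')) wi)
    (Nat.ble (Nat.mul D wi)
      (Nat.add (Nat.mul A (ent S tw (Nat.mod (Nat.add (Nat.mul 16 i) 9) m)))
        (bc (Nat.beq d 0) 0
          (bc (Nat.beq d 1) (Nat.mul B3 (ent S tu (Nat.div (Nat.mod (Nat.mul 8 c) m) 5)))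
            (bc (Nat.beq d 2) (Nat.mul B2 (ent S tu (Nat.div (Nat.mod (Nat.mul 4 c) m) 5)))
              (bc (Nat.beq d 3) (Nat.mul B0 (ent S tu (Nat.div (Nat.mod c m) 5)))
                (Nat.mul B1 (ent S tu (Nat.div (Nat.mod (Nat.mul 2 c) m) 5)))))))))
    false) false

/-- Check all indices whose base-5 expansion starts with that of `i`. -/
noncomputable def chk2 (f : ℕ → Bool) (d : ℕ) : ℕ → Bool :=
  @Nat.rec (fun _ => ℕ → Bool) (fun i => forceN i f)
   (fun _ ih i => bc (ih (Nat.mul 5 i)) (bc (ih (Nat.add (Nat.mul 5 i) 1))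
      (bc (ih (Nat.add (Nat.mul 5 i) 2)) (bc (ih (Nat.add (Nat.mul 5 i) 3))
        (ih (Nat.add (Nat.mul 5 i) 4)) false) false) false) false) d

end Pool.Agent.H95.FiveX
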