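import Pool.Agent.H95.FiveX.Cert
import Pool.Agent.H95.FiveX.Eval

/-!
# From the evaluated check to a certificate
-/

namespace Pool.Agent.H95.FiveX

lemma forceN_eq (x : ℕ) (f : ℕ → Bool) : forceN x f = f x := by
  cases x <;> rfl

lemma bc_eq {α : Type} (b : Bool) (x y : α) : bc b x y = if b = true then x else y := by
  cases b <;> rfl

lemma bc_false {b x : Bool} (h : bc b x false = true) : b = true ∧ x = true := by
  cases b
  · exact absurd (show false = true from h) (by decide)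
  · exact ⟨rfl, h⟩

lemma chk2_zero (f : ℕ → Bool) (i : ℕ) : chk2 f 0 i = f i := forceN_eq i f

lemma chk2_succ (f : ℕ → Bool) (d i : ℕ) : chk2 f (d + 1) i =
    bc (chk2 f d (Nat.mul 5 i)) (bc (chk2 f d (Nat.add (Nat.mul 5 i) 1))
      (bc (chk2 f d (Nat.add (Nat.mul 5 i) 2)) (bc (chk2 f d (Nat.add (Nat.mul 5 i) 3))
        (chk2 f d (Nat.add (Nat.mul 5 i) 4)) false) false) false) false := rfl

theorem chk2_spec (f : ℕ → Bool) (d : ℕ) : ∀ i : ℕ, chk2 f d i = true →
    ∀ j, j < 5 ^ d → f (5 ^ d * i + j) = true := by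
  induction d with
  | zero =>
    intro i h j hj
    rw [chk2_zero] at h
    have : j = 0 := by simpa using hj
    subst this
    simpa using h
  | succ d ih =>
    intro i h j hj
    rw [chk2_succ] at h
    obtain ⟨h0, h⟩ := bc_false h
    obtain ⟨h1, h⟩ := bc_false h
    obtain ⟨h2, h⟩ := bc_false h
    obtain ⟨h3, h4⟩ := bc_false h
    have hq : j / 5 ^ d < 5 := by
      rw [Nat.div_lt_iff_lt_mul (by positivity)]
      rw [pow_succ] at hj
      linarith
    have hr : j % 5 ^ d < 5 ^ d := Nat.mod_lt _ (by positivity)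
    have e : 5 ^ (d + 1) * i + j = 5 ^ d * (5 * i + j / 5 ^ d) + j % 5 ^ d := by
      have := Nat.div_add_mod j (5 ^ d)
      rw [pow_succ]
      nlinarith
    rw [e]
    interval_cases hjd : j / 5 ^ d
    · exact ih _ h0 _ hr
    · exact ih _ h1 _ hr
    · exact ih _ h2 _ hr
    · exact ih _ h3 _ hr
    · exact ih _ h4 _ hr

lemma nat_mod_eq (a b : ℕ) : Nat.mod a b = a % b := rfl
lemma nat_add_eq (a b : ℕ) : Nat.add a b = a + b := rfl
lemma nat_mul_eq (a b : ℕ) : Nat.mul a b = a * b := rfl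
lemma nat_div_eq (a b : ℕ) : Nat.div a b = a / b := rfl

theorem cert_of_chk {K : ℕ} (hK : 1 ≤ K) {S m m' : ℕ} (hm : m = 5 ^ K) (hm' : m' = 5 ^ (K - 1))
    {tw tu : BT} {A B0 B1 B2 B3 D : ℕ}
    (hall : ∀ i, i < 5 ^ K → checkOne S m m' tw tu A B0 B1 B2 B3 D i = true) :
    Cert K (fun r => ent S tw (r / 5)) (fun c => ent S tu (c / 5)) A B0 B1 B2 B3 D 65535 := by
  subst hm hm'
  have hmm' : 5 ^ K = 5 * 5 ^ (K - 1) := by
    conv_lhs => rw [show K = (K - 1) + 1 by omega, pow_succ]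
    ring
  have hM : 5 ^ (K + 1) = 5 * 5 ^ K := by rw [pow_succ]; ring
  have main : ∀ r, r < 5 ^ (K + 1) → r % 5 = 3 →
      1 ≤ ent S tw (r / 5) ∧ ent S tu (r % 5 ^ K / 5) ≤ ent S tw (r / 5) ∧
      D * ent S tw (r / 5) ≤ A * ent S tw (16 * r % 5 ^ (K + 1) / 5) +
        sideTerm (5 ^ K) (fun c => ent S tu (c / 5)) B0 B1 B2 B3 r := by
    intro r hr h3
    set i := r / 5 with hi
    have hri : r = 5 * i + 3 := by omega
    have hiK : i < 5 ^ K := by
      rw [hi, Nat.div_lt_iff_lt_mul (by norm_num)]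
      linarith
    have hc := hall i hiK
    unfold checkOne at hc
    rw [forceN_eq, forceN_eq, forceN_eq] at hc
    obtain ⟨c1, hc⟩ := bc_false hc
    obtain ⟨c2, c3⟩ := bc_false hc
    rw [Nat.ble_eq] at c1 c2 c3
    have e1 : r % 5 ^ K / 5 = i % 5 ^ (K - 1) := by
      rw [hmm', Nat.mod_mul_right_div_self]
    have e2 : 16 * r % 5 ^ (K + 1) / 5 = (16 * i + 9) % 5 ^ K := by
      rw [hM, Nat.mod_mul_right_div_self]
      congr 1
      omega
    have e3 : (2 * r - 1) / 5 = 2 * i + 1 := by omega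
    refine ⟨c1, ?_, ?_⟩
    · rw [e1]; exact c2
    · rw [e2]
      refine c3.trans (le_of_eq ?_)
      simp only [nat_mod_eq, nat_add_eq, nat_mul_eq, nat_div_eq, bc_eq, Nat.beq_eq, sideTerm, e3]
  refine ⟨?_, ?_, ?_⟩
  · intro r hr h3
    refine ⟨(main r hr h3).1, ?_⟩
    have : ent S tw (r / 5) < 65536 := Nat.mod_lt _ (by norm_num)
    exact Nat.le_of_lt_succ this
  · intro r hr h3
    exact (main r hr h3).2.1
  · intro r hr h3
    exact (main r hr h3).2.2

/-- Assemble the check from blocks. -/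
theorem all_of_blocks (f : ℕ → Bool) (a b : ℕ) (h : ∀ q, q < 5 ^ a → chk2 f b q = true) :
    ∀ i, i < 5 ^ (a + b) → f i = true := by
  intro i hi
  have hq : i / 5 ^ b < 5 ^ a := by
    rw [Nat.div_lt_iff_lt_mul (by positivity), ← pow_add]
    exact hi
  have := chk2_spec f b (i / 5 ^ b) (h _ hq) (i % 5 ^ b) (Nat.mod_lt _ (by positivity))
  rwa [Nat.div_add_mod] at this

end Pool.Agent.H95.FiveX
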