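import Pool.Agent.H95.FiveX.Tree

/-!
# From a residue certificate to a lower bound for the number of eventually periodic orbits
-/

namespace Pool.Agent.H95.FiveX

/-- The contribution of the second child in the certificate inequality. -/
def sideTerm (m : ℕ) (wm : ℕ → ℕ) (B0 B1 B2 B3 : ℕ) (r : ℕ) : ℕ :=
  let c := ((2 * r - 1) / 5) % m
  if c % 5 = 0 then 0 else if c % 5 = 1 then B3 * wm (8 * c % m)
    else if c % 5 = 2 then B2 * wm (4 * c % m) else if c % 5 = 3 then B0 * wm (c % m)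
    else B1 * wm (2 * c % m)

/-- A residue certificate modulo `5 ^ (K + 1)`. -/
structure Cert (K : ℕ) (w wm : ℕ → ℕ) (A B0 B1 B2 B3 D Wmax : ℕ) : Prop where
  hpos : ∀ r, r < 5 ^ (K + 1) → r % 5 = 3 → 0 < w r ∧ w r ≤ Wmax
  hwm : ∀ r, r < 5 ^ (K + 1) → r % 5 = 3 → wm (r % 5 ^ K) ≤ w r
  hineq : ∀ r, r < 5 ^ (K + 1) → r % 5 = 3 →
    D * w r ≤ A * w (16 * r % 5 ^ (K + 1)) + sideTerm (5 ^ K) wm B0 B1 B2 B3 r

lemma rpow_aux {a b t γ : ℝ} (hγ : 0 < γ) (ha : 0 < a) (hb : 0 < b) (ht : 0 < t)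
    (h : a ≤ t * b) : t ^ (-γ) * b ^ (-γ) ≤ a ^ (-γ) := by
  rw [← Real.mul_rpow ht.le hb.le]
  exact Real.rpow_le_rpow_of_nonpos ha h (by linarith)

theorem sub_of_cert {K : ℕ} (hK : 1 ≤ K) {w wm : ℕ → ℕ} {A B0 B1 B2 B3 D Wmax : ℕ}
    (hD : 0 < D) (C : Cert K w wm A B0 B1 B2 B3 D Wmax) {γ : ℝ} (hγ : 0 < γ)
    (hA : (A : ℝ) / D ≤ (16 : ℝ) ^ (-γ)) (hB0 : (B0 : ℝ) / D ≤ (2 / 5 : ℝ) ^ (-γ))
    (hB1 : (B1 : ℝ) / D ≤ (4 / 5 : ℝ) ^ (-γ)) (hB2 : (B2 : ℝ) / D ≤ (8 / 5 : ℝ) ^ (-γ))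
    (hB3 : (B3 : ℝ) / D ≤ (16 / 5 : ℝ) ^ (-γ)) (n : ℕ) (hn : n % 5 = 3) :
    (w (n % 5 ^ (K + 1)) : ℝ) * (n : ℝ) ^ (-γ) ≤
      (w (16 * n % 5 ^ (K + 1)) : ℝ) * ((16 * n : ℕ) : ℝ) ^ (-γ) +
      (w (side n % 5 ^ (K + 1)) : ℝ) * (side n : ℝ) ^ (-γ) := by
  have hdvd : 5 ∣ 5 ^ K := dvd_pow_self 5 (by omega)
  have hdvd2 : 5 ∣ 5 ^ (K + 1) := dvd_pow_self 5 (by omega)
  have hmm : 5 ^ K ∣ 5 ^ (K + 1) := pow_dvd_pow 5 (by omega)
  have hMpos : 0 < 5 ^ (K + 1) := by positivity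
  have hmpos : 0 < 5 ^ K := by positivity
  obtain ⟨y, hy1, hy2, hy3⟩ := side_spec hn
  set M := 5 ^ (K + 1) with hM
  set m := 5 ^ K with hm
  have hMm : M = 5 * m := by rw [hM, hm, pow_succ]; ring
  set r := n % M with hr
  have hrM : r < M := Nat.mod_lt _ hMpos
  have hr5 : r % 5 = 3 := by rw [hr, Nat.mod_mod_of_dvd _ hdvd2]; exact hn
  have hnr : n = r + M * (n / M) := by rw [hr]; exact (Nat.mod_add_div n M).symm
  have hyc : ((2 * r - 1) / 5) % m = y % m := by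
    have h1 : y = (2 * r - 1) / 5 + m * (2 * (n / M)) := by
      have h2 : 5 * y + 1 = 2 * r + 5 * (m * (2 * (n / M))) := by
        generalize n / M = q at hnr ⊢
        rw [← hy1, hnr, hMm]
        ring
      omega
    rw [h1, Nat.add_mul_mod_self_left]
  have hc5 : (y % m) % 5 = y % 5 := Nat.mod_mod_of_dvd _ hdvd
  have hnpos : 0 < n := by omega
  have hnR : (0 : ℝ) < n := by exact_mod_cast hnpos
  have hDR : (0 : ℝ) < D := by exact_mod_cast hD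
  have hnγ : 0 < (n : ℝ) ^ (-γ) := Real.rpow_pos_of_pos hnR _
  -- first child
  have h16 : (A : ℝ) / D * w (16 * r % M) * (n : ℝ) ^ (-γ) ≤
      (w (16 * n % M) : ℝ) * ((16 * n : ℕ) : ℝ) ^ (-γ) := by
    have e1 : 16 * n % M = 16 * r % M := by
      rw [hr, Nat.mul_mod, Nat.mul_mod 16 (n % M), Nat.mod_mod]
    have e2 : ((16 * n : ℕ) : ℝ) ^ (-γ) = (16 : ℝ) ^ (-γ) * (n : ℝ) ^ (-γ) := by
      push_cast
      rw [Real.mul_rpow (by norm_num) hnR.le]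
    rw [e1, e2]
    have := mul_le_mul_of_nonneg_right hA hnγ.le
    calc (A : ℝ) / D * w (16 * r % M) * (n : ℝ) ^ (-γ)
        = w (16 * r % M) * ((A : ℝ) / D * (n : ℝ) ^ (-γ)) := by ring
      _ ≤ _ := by gcongr
  -- the general step for the second child
  have hmain : ∀ (t : ℕ) (B : ℕ), 0 < t → (B : ℝ) / D ≤ (2 * t / 5 : ℝ) ^ (-γ) →
      (t * y) % 5 = 3 →
      (B : ℝ) / D * wm (t * (y % m) % m) * (n : ℝ) ^ (-γ) ≤
      (w (t * y % M) : ℝ) * ((t * y : ℕ) : ℝ) ^ (-γ) := by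
    intro t B ht hB hty
    have hypos : 0 < y := by
      rcases Nat.eq_zero_or_pos y with h | h
      · subst h; simp at hty
      · exact h
    have htypos : (0 : ℝ) < ((t * y : ℕ) : ℝ) := by
      have : 0 < t * y := Nat.mul_pos ht hypos
      exact_mod_cast this
    have htR : (0 : ℝ) < t := by exact_mod_cast ht
    have e1 : wm (t * (y % m) % m) ≤ w (t * y % M) := by
      have e2 : t * (y % m) % m = (t * y % M) % m := by
        rw [Nat.mod_mod_of_dvd _ hmm, Nat.mul_mod t (y % m), Nat.mod_mod, ← Nat.mul_mod]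
      rw [e2]
      exact C.hwm _ (Nat.mod_lt _ hMpos) (by rw [Nat.mod_mod_of_dvd _ hdvd2]; exact hty)
    have e3 : (2 * t / 5 : ℝ) ^ (-γ) * (n : ℝ) ^ (-γ) ≤ ((t * y : ℕ) : ℝ) ^ (-γ) := by
      apply rpow_aux hγ htypos hnR (by positivity)
      have : (5 : ℝ) * y + 1 = 2 * n := by exact_mod_cast hy1.symm
      push_cast
      have : (y : ℝ) ≤ 2 * n / 5 := by linarith
      calc (t : ℝ) * y ≤ t * (2 * n / 5) := by gcongr
        _ = _ := by ring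
    calc (B : ℝ) / D * wm (t * (y % m) % m) * (n : ℝ) ^ (-γ)
        = wm (t * (y % m) % m) * ((B : ℝ) / D * (n : ℝ) ^ (-γ)) := by ring
      _ ≤ wm (t * (y % m) % m) * ((2 * t / 5 : ℝ) ^ (-γ) * (n : ℝ) ^ (-γ)) := by gcongr
      _ ≤ wm (t * (y % m) % m) * ((t * y : ℕ) : ℝ) ^ (-γ) := by gcongr
      _ ≤ w (t * y % M) * ((t * y : ℕ) : ℝ) ^ (-γ) := by
        have : (wm (t * (y % m) % m) : ℝ) ≤ w (t * y % M) := by exact_mod_cast e1
        gcongr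
  have hside : (sideTerm m wm B0 B1 B2 B3 r : ℝ) / D * (n : ℝ) ^ (-γ) ≤
      (w (side n % M) : ℝ) * (side n : ℝ) ^ (-γ) := by
    unfold sideTerm
    simp only [hyc, hc5]
    rw [hy3]
    by_cases c0 : y % 5 = 0
    · rw [if_pos c0, if_pos c0]
      have : (0 : ℝ) ^ (-γ) = 0 := Real.zero_rpow (by linarith)
      simp [this]
    by_cases c1 : y % 5 = 1
    · rw [if_neg c0, if_pos c1, if_neg c0, if_pos c1]
      have := hmain 8 B3 (by norm_num) (by convert hB3 using 2; norm_num) (by omega)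
      calc ((B3 * wm (8 * (y % m) % m) : ℕ) : ℝ) / D * (n : ℝ) ^ (-γ)
          = (B3 : ℝ) / D * wm (8 * (y % m) % m) * (n : ℝ) ^ (-γ) := by push_cast; ring
        _ ≤ _ := this
    by_cases c2 : y % 5 = 2
    · rw [if_neg c0, if_neg c1, if_pos c2, if_neg c0, if_neg c1, if_pos c2]
      have := hmain 4 B2 (by norm_num) (by convert hB2 using 2; norm_num) (by omega)
      calc ((B2 * wm (4 * (y % m) % m) : ℕ) : ℝ) / D * (n : ℝ) ^ (-γ)
          = (B2 : ℝ) / D * wm (4 * (y % m) % m) * (n : ℝ) ^ (-γ) := by push_cast; ring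
        _ ≤ _ := this
    by_cases c3 : y % 5 = 3
    · rw [if_neg c0, if_neg c1, if_neg c2, if_pos c3, if_neg c0, if_neg c1, if_neg c2, if_pos c3]
      have := hmain 1 B0 (by norm_num) (by convert hB0 using 2; norm_num) (by omega)
      rw [one_mul, one_mul] at this
      calc ((B0 * wm (y % m % m) : ℕ) : ℝ) / D * (n : ℝ) ^ (-γ)
          = (B0 : ℝ) / D * wm (y % m % m) * (n : ℝ) ^ (-γ) := by push_cast; ring
        _ ≤ _ := this
    · rw [if_neg c0, if_neg c1, if_neg c2, if_neg c3, if_neg c0, if_neg c1, if_neg c2, if_neg c3]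
      have := hmain 2 B1 (by norm_num) (by convert hB1 using 2; norm_num) (by omega)
      calc ((B1 * wm (2 * (y % m) % m) : ℕ) : ℝ) / D * (n : ℝ) ^ (-γ)
          = (B1 : ℝ) / D * wm (2 * (y % m) % m) * (n : ℝ) ^ (-γ) := by push_cast; ring
        _ ≤ _ := this
  have hin := C.hineq r hrM hr5
  have hinR : (D : ℝ) * w r ≤ A * w (16 * r % M) + sideTerm m wm B0 B1 B2 B3 r := by
    exact_mod_cast hin
  have h5 : (w r : ℝ) ≤ (A : ℝ) / D * w (16 * r % M) + (sideTerm m wm B0 B1 B2 B3 r : ℝ) / D := by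
    rw [div_mul_eq_mul_div, ← add_div, le_div_iff₀ hDR]
    linarith
  calc (w r : ℝ) * (n : ℝ) ^ (-γ)
      ≤ ((A : ℝ) / D * w (16 * r % M) + (sideTerm m wm B0 B1 B2 B3 r : ℝ) / D) *
        (n : ℝ) ^ (-γ) := by gcongr
    _ = (A : ℝ) / D * w (16 * r % M) * (n : ℝ) ^ (-γ) +
        (sideTerm m wm B0 B1 B2 B3 r : ℝ) / D * (n : ℝ) ^ (-γ) := by ring
    _ ≤ _ := add_le_add h16 hside

lemma Q5_set_finite (x : ℝ) : {n : ℤ | 1 ≤ n ∧ (n : ℝ) ≤ x ∧ EvPer n}.Finite := by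
  refine (Set.finite_Icc (1 : ℤ) ⌊x⌋).subset ?_
  rintro n ⟨h1, h2, _⟩
  exact ⟨h1, Int.le_floor.2 h2⟩

lemma Q5_mono {x y : ℝ} (h : x ≤ y) : Q5 x ≤ Q5 y := by
  apply Set.ncard_le_ncard _ (Q5_set_finite y)
  rintro n ⟨h1, h2, h3⟩
  exact ⟨h1, h2.trans h, h3⟩

lemma R1_set_finite (x : ℝ) : {n : ℤ | 1 ≤ n ∧ (n : ℝ) ≤ x ∧ ∃ k : ℕ, T5^[k] n = 1}.Finite := by
  refine (Set.finite_Icc (1 : ℤ) ⌊x⌋).subset ?_
  rintro n ⟨h1, h2, _⟩
  exact ⟨h1, Int.le_floor.2 h2⟩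

lemma R1_mono {x y : ℝ} (h : x ≤ y) : R1 x ≤ R1 y := by
  apply Set.ncard_le_ncard _ (R1_set_finite y)
  rintro n ⟨h1, h2, h3⟩
  exact ⟨h1, h2.trans h, h3⟩

lemma R1_le_Q5 (x : ℝ) : R1 x ≤ Q5 x := by
  apply Set.ncard_le_ncard _ (Q5_set_finite x)
  rintro n ⟨h1, h2, k, hk⟩
  refine ⟨h1, h2, evPer_of_iterate (k := k) ?_⟩
  rw [hk]
  exact evPer_one

lemma R1_pos {x : ℝ} (hx : 1 ≤ x) : 1 ≤ R1 x := by
  have : (1 : ℤ) ∈ {n : ℤ | 1 ≤ n ∧ (n : ℝ) ≤ x ∧ ∃ k : ℕ, T5^[k] n = 1} :=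
    ⟨le_rfl, by simpa using hx, 0, rfl⟩
  exact (Set.ncard_pos (R1_set_finite x)).2 ⟨1, this⟩

lemma Q5_pos {x : ℝ} (hx : 1 ≤ x) : 1 ≤ Q5 x := by
  have : (1 : ℤ) ∈ {n : ℤ | 1 ≤ n ∧ (n : ℝ) ≤ x ∧ EvPer n} := ⟨le_rfl, by simpa using hx, evPer_one⟩
  exact (Set.ncard_pos (Q5_set_finite x)).2 ⟨1, this⟩

lemma Q5_le {x : ℝ} (hx : 0 ≤ x) : (Q5 x : ℝ) ≤ x := by
  have h1 : Q5 x ≤ (Set.Icc (1 : ℤ) ⌊x⌋).ncard := by
    apply Set.ncard_le_ncard _ (Set.finite_Icc _ _)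
    rintro n ⟨h1, h2, _⟩
    exact ⟨h1, Int.le_floor.2 h2⟩
  have h2 : (Set.Icc (1 : ℤ) ⌊x⌋).ncard = ⌊x⌋.toNat := by
    rw [Set.ncard_eq_toFinset_card']
    simp
  rw [h2] at h1
  have h3 : (0 : ℤ) ≤ ⌊x⌋ := Int.floor_nonneg.2 hx
  have h4 : ((⌊x⌋.toNat : ℤ) : ℝ) = ⌊x⌋ := by rw [Int.toNat_of_nonneg h3]
  calc (Q5 x : ℝ) ≤ (⌊x⌋.toNat : ℝ) := by exact_mod_cast h1
    _ = ⌊x⌋ := by exact_mod_cast h4
    _ ≤ x := Int.floor_le x

theorem bound_of_cert {K : ℕ} (hK : 1 ≤ K) {w wm : ℕ → ℕ} {A B0 B1 B2 B3 D Wmax : ℕ}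
    (hD : 0 < D) (C : Cert K w wm A B0 B1 B2 B3 D Wmax) {γ : ℝ} (hγ : 0 < γ)
    (hA : (A : ℝ) / D ≤ (16 : ℝ) ^ (-γ)) (hB0 : (B0 : ℝ) / D ≤ (2 / 5 : ℝ) ^ (-γ))
    (hB1 : (B1 : ℝ) / D ≤ (4 / 5 : ℝ) ^ (-γ)) (hB2 : (B2 : ℝ) / D ≤ (8 / 5 : ℝ) ^ (-γ))
    (hB3 : (B3 : ℝ) / D ≤ (16 / 5 : ℝ) ^ (-γ)) :
    ∃ c : ℝ, 0 < c ∧ ∀ x : ℝ, 1 ≤ x → c * x ^ γ ≤ R1 x := by
  set h : ℕ → ℝ := fun n => (w (n % 5 ^ (K + 1)) : ℝ) * (n : ℝ) ^ (-γ) with hh
  have h128 : 128 % 5 ^ (K + 1) % 5 = 3 := by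
    rw [Nat.mod_mod_of_dvd _ (dvd_pow_self 5 (by omega))]
  have hMpos : 0 < 5 ^ (K + 1) := by positivity
  have hw128 : 0 < w (128 % 5 ^ (K + 1)) := (C.hpos _ (Nat.mod_lt _ hMpos) h128).1
  have hWmax : 0 < Wmax :=
    lt_of_lt_of_le hw128 (C.hpos _ (Nat.mod_lt _ hMpos) h128).2
  have hWR : (0 : ℝ) < Wmax := by exact_mod_cast hWmax
  have hpos128 : 0 < h 128 := by
    simp only [hh]
    have : (0 : ℝ) < w (128 % 5 ^ (K + 1)) := by exact_mod_cast hw128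
    positivity
  have key : ∀ N : ℕ, 128 ≤ N → h 128 / Wmax * (N : ℝ) ^ γ ≤ R1 (16 * N) := by
    intro N hN
    have hNR : (0 : ℝ) < N := by
      have : 0 < N := by omega
      exact_mod_cast this
    obtain ⟨E, hE1, hE2⟩ := count_principle h (fun n => by simp only [hh]; positivity)
      (by simp only [hh]; rw [Nat.cast_zero, Real.zero_rpow (by linarith), mul_zero])
      (fun n hn => sub_of_cert hK hD C hγ hA hB0 hB1 hB2 hB3 n hn) N hN
      (Wmax * (N : ℝ) ^ (-γ)) (by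
        intro n hn h5
        simp only [hh]
        have h1 : (w (n % 5 ^ (K + 1)) : ℝ) ≤ Wmax := by
          have := (C.hpos (n % 5 ^ (K + 1)) (Nat.mod_lt _ hMpos)
            (by rw [Nat.mod_mod_of_dvd _ (dvd_pow_self 5 (by omega))]; exact h5)).2
          exact_mod_cast this
        have h2 : (n : ℝ) ^ (-γ) ≤ (N : ℝ) ^ (-γ) := by
          apply Real.rpow_le_rpow_of_nonpos hNR _ (by linarith)
          exact_mod_cast hn.le
        gcongr)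
    have hcard : (E.card : ℝ) ≤ R1 (16 * N) := by
      have h1 : ((fun m : ℕ => (m : ℤ)) '' (E : Set ℕ)).ncard ≤ R1 (16 * N) := by
        apply Set.ncard_le_ncard _ (R1_set_finite _)
        rintro _ ⟨m, hm, rfl⟩
        obtain ⟨a, b, c⟩ := hE1 m hm
        refine ⟨by simpa using Nat.one_le_iff_ne_zero.1 a |> Nat.one_le_iff_ne_zero.2, ?_, c.reach⟩
        have : (m : ℝ) ≤ ((16 * N : ℕ) : ℝ) := by exact_mod_cast b
        simpa using this
      rw [Set.ncard_image_of_injective _ Nat.cast_injective, Set.ncard_coe_finset] at h1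
      exact_mod_cast h1
    have hNγ : 0 < (N : ℝ) ^ γ := Real.rpow_pos_of_pos hNR _
    have e : (N : ℝ) ^ (-γ) * (N : ℝ) ^ γ = 1 := by
      rw [← Real.rpow_add hNR]; simp
    calc h 128 / Wmax * (N : ℝ) ^ γ
        ≤ (E.card * (Wmax * (N : ℝ) ^ (-γ))) / Wmax * (N : ℝ) ^ γ := by gcongr
      _ = E.card * ((N : ℝ) ^ (-γ) * (N : ℝ) ^ γ) := by field_simp
      _ = E.card := by rw [e, mul_one]
      _ ≤ _ := hcard
  refine ⟨min (h 128 / Wmax * (1 / 32) ^ γ) ((2048 : ℝ) ^ (-γ)), by positivity, ?_⟩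
  intro x hx
  have hx0 : (0 : ℝ) < x := by linarith
  rcases le_or_gt 2048 x with hx2 | hx2
  · set N := ⌊x / 16⌋₊ with hN
    have hN1 : (N : ℝ) ≤ x / 16 := Nat.floor_le (by positivity)
    have hN2 : x / 16 < N + 1 := Nat.lt_floor_add_one _
    have hN3 : 128 ≤ N := by
      rw [hN]
      apply Nat.le_floor
      push_cast
      linarith
    have hN4 : x / 32 ≤ N := by
      have : (128 : ℝ) ≤ N := by exact_mod_cast hN3
      linarith
    calc min (h 128 / Wmax * (1 / 32) ^ γ) ((2048 : ℝ) ^ (-γ)) * x ^ γ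
        ≤ (h 128 / Wmax * (1 / 32) ^ γ) * x ^ γ := by
          gcongr
          exact min_le_left _ _
      _ = h 128 / Wmax * (x / 32) ^ γ := by
          rw [mul_assoc, ← Real.mul_rpow (by norm_num) hx0.le]
          congr 2
          ring
      _ ≤ h 128 / Wmax * (N : ℝ) ^ γ := by
          gcongr
      _ ≤ R1 (16 * N) := key N hN3
      _ ≤ R1 x := by
          have : R1 (16 * N) ≤ R1 x := R1_mono (by linarith)
          exact_mod_cast this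
  · have h1 : (1 : ℝ) ≤ R1 x := by exact_mod_cast R1_pos hx
    refine le_trans ?_ h1
    calc min (h 128 / Wmax * (1 / 32) ^ γ) ((2048 : ℝ) ^ (-γ)) * x ^ γ
        ≤ (2048 : ℝ) ^ (-γ) * x ^ γ := by
          gcongr
          exact min_le_right _ _
      _ ≤ (2048 : ℝ) ^ (-γ) * (2048 : ℝ) ^ γ := by gcongr
      _ = 1 := by rw [← Real.rpow_add (by norm_num)]; simp

theorem liminf_of_bound {γ : ℝ} (h : ∃ c : ℝ, 0 < c ∧ ∀ x : ℝ, 1 ≤ x → c * x ^ γ ≤ Q5 x) :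
    γ ≤ Filter.liminf (fun x : ℝ => Real.log (Q5 x) / Real.log x) Filter.atTop := by
  obtain ⟨c, hc, hb⟩ := h
  have hbdd : Filter.IsBoundedUnder (· ≤ ·) Filter.atTop
      (fun x : ℝ => Real.log (Q5 x) / Real.log x) := by
    refine ⟨1, ?_⟩
    rw [Filter.eventually_map]
    filter_upwards [Filter.eventually_gt_atTop (1 : ℝ)] with x hx
    have hl : 0 < Real.log x := Real.log_pos hx
    rw [div_le_one hl]
    apply Real.log_le_log
    · exact_mod_cast Q5_pos hx.le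
    · exact Q5_le (by linarith)
  have hcob : Filter.IsCoboundedUnder (· ≥ ·) Filter.atTop
      (fun x : ℝ => Real.log (Q5 x) / Real.log x) := hbdd.isCoboundedUnder_ge
  refine le_of_forall_pos_le_add fun ε hε => ?_
  have : γ - ε ≤ Filter.liminf (fun x : ℝ => Real.log (Q5 x) / Real.log x) Filter.atTop := by
    apply Filter.le_liminf_of_le hcob
    have hlim : Filter.Tendsto (fun x : ℝ => Real.log c / Real.log x) Filter.atTop (nhds 0) :=
      Real.tendsto_log_atTop.const_div_atTop _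
    have hev := hlim.eventually (lt_mem_nhds (show -ε < 0 by linarith))
    filter_upwards [hev, Filter.eventually_gt_atTop (1 : ℝ)] with x hx1 hx
    have hl : 0 < Real.log x := Real.log_pos hx
    have hx0 : 0 < x := by linarith
    have h1 := hb x hx.le
    have h2 : Real.log (c * x ^ γ) ≤ Real.log (Q5 x) :=
      Real.log_le_log (by positivity) h1
    rw [Real.log_mul hc.ne' (by positivity), Real.log_rpow hx0] at h2
    rw [le_div_iff₀ hl]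
    have h3 : -ε * Real.log x < Real.log c := by
      rwa [lt_div_iff₀ hl] at hx1
    nlinarith
  linarith

end Pool.Agent.H95.FiveX
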