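import Pool.Agent.H95.FiveX.Tab

namespace Pool.Agent.H95.FiveX.Tab

theorem chk_0 : chk2 F 5 0 = true := by decide +kernel
theorem chk_1 : chk2 F 5 1 = true := by decide +kernel
theorem chk_2 : chk2 F 5 2 = true := by decide +kernel
theorem chk_3 : chk2 F 5 3 = true := by decide +kernel
theorem chk_4 : chk2 F 5 4 = true := by decide +kernel
theorem chk_5 : chk2 F 5 5 = true := by decide +kernel
theorem chk_6 : chk2 F 5 6 = true := by decide +kernel
theorem chk_7 : chk2 F 5 7 = true := by decide +kernel
theorem chk_8 : chk2 F 5 8 = true := by decide +kernel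
theorem chk_9 : chk2 F 5 9 = true := by decide +kernel
theorem chk_10 : chk2 F 5 10 = true := by decide +kernel

end Pool.Agent.H95.FiveX.Tab
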