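import Pool.Agent.H95.FiveX.TabRun0

namespace Pool.Agent.H95.FiveX.Tab

theorem chk_11 : chk2 F 5 11 = true := by decide +kernel
theorem chk_12 : chk2 F 5 12 = true := by decide +kernel
theorem chk_13 : chk2 F 5 13 = true := by decide +kernel
theorem chk_14 : chk2 F 5 14 = true := by decide +kernel
theorem chk_15 : chk2 F 5 15 = true := by decide +kernel
theorem chk_16 : chk2 F 5 16 = true := by decide +kernel
theorem chk_17 : chk2 F 5 17 = true := by decide +kernel
theorem chk_18 : chk2 F 5 18 = true := by decide +kernel
theorem chk_19 : chk2 F 5 19 = true := by decide +kernel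
theorem chk_20 : chk2 F 5 20 = true := by decide +kernel
theorem chk_21 : chk2 F 5 21 = true := by decide +kernel

end Pool.Agent.H95.FiveX.Tab
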