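import Pool.Agent.H95.FiveX.TabRun9

namespace Pool.Agent.H95.FiveX.Tab

theorem chk_110 : chk2 F 5 110 = true := by decide +kernel
theorem chk_111 : chk2 F 5 111 = true := by decide +kernel
theorem chk_112 : chk2 F 5 112 = true := by decide +kernel
theorem chk_113 : chk2 F 5 113 = true := by decide +kernel
theorem chk_114 : chk2 F 5 114 = true := by decide +kernel
theorem chk_115 : chk2 F 5 115 = true := by decide +kernel
theorem chk_116 : chk2 F 5 116 = true := by decide +kernel
theorem chk_117 : chk2 F 5 117 = true := by decide +kernel
theorem chk_118 : chk2 F 5 118 = true := by decide +kernel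
theorem chk_119 : chk2 F 5 119 = true := by decide +kernel
theorem chk_120 : chk2 F 5 120 = true := by decide +kernel

end Pool.Agent.H95.FiveX.Tab
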