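import Pool.Agent.H95.FiveX.TabRun10

namespace Pool.Agent.H95.FiveX.Tab

theorem chk_121 : chk2 F 5 121 = true := by decide +kernel
theorem chk_122 : chk2 F 5 122 = true := by decide +kernel
theorem chk_123 : chk2 F 5 123 = true := by decide +kernel
theorem chk_124 : chk2 F 5 124 = true := by decide +kernel

end Pool.Agent.H95.FiveX.Tab
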