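import Pool.Agent.H95.FiveX.Tab

namespace Pool.Agent.H95.FiveX.Tab

theorem chk_33 : chk2 F 5 33 = true := by decide +kernel
theorem chk_34 : chk2 F 5 34 = true := by decide +kernel
theorem chk_35 : chk2 F 5 35 = true := by decide +kernel
theorem chk_36 : chk2 F 5 36 = true := by decide +kernel
theorem chk_37 : chk2 F 5 37 = true := by decide +kernel
theorem chk_38 : chk2 F 5 38 = true := by decide +kernel
theorem chk_39 : chk2 F 5 39 = true := by decide +kernel
theorem chk_40 : chk2 F 5 40 = true := by decide +kernel
theorem chk_41 : chk2 F 5 41 = true := by decide +kernel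
theorem chk_42 : chk2 F 5 42 = true := by decide +kernel
theorem chk_43 : chk2 F 5 43 = true := by decide +kernel

end Pool.Agent.H95.FiveX.Tab
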