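import Pool.Agent.H95.FiveX.TabRun3

namespace Pool.Agent.H95.FiveX.Tab

theorem chk_44 : chk2 F 5 44 = true := by decide +kernel
theorem chk_45 : chk2 F 5 45 = true := by decide +kernel
theorem chk_46 : chk2 F 5 46 = true := by decide +kernel
theorem chk_47 : chk2 F 5 47 = true := by decide +kernel
theorem chk_48 : chk2 F 5 48 = true := by decide +kernel
theorem chk_49 : chk2 F 5 49 = true := by decide +kernel
theorem chk_50 : chk2 F 5 50 = true := by decide +kernel
theorem chk_51 : chk2 F 5 51 = true := by decide +kernel
theorem chk_52 : chk2 F 5 52 = true := by decide +kernel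
theorem chk_53 : chk2 F 5 53 = true := by decide +kernel
theorem chk_54 : chk2 F 5 54 = true := by decide +kernel

end Pool.Agent.H95.FiveX.Tab
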