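import Pool.Agent.H95.FiveX.TabRun7

namespace Pool.Agent.H95.FiveX.Tab

theorem chk_88 : chk2 F 5 88 = true := by decide +kernel
theorem chk_89 : chk2 F 5 89 = true := by decide +kernel
theorem chk_90 : chk2 F 5 90 = true := by decide +kernel
theorem chk_91 : chk2 F 5 91 = true := by decide +kernel
theorem chk_92 : chk2 F 5 92 = true := by decide +kernel
theorem chk_93 : chk2 F 5 93 = true := by decide +kernel
theorem chk_94 : chk2 F 5 94 = true := by decide +kernel
theorem chk_95 : chk2 F 5 95 = true := by decide +kernel
theorem chk_96 : chk2 F 5 96 = true := by decide +kernel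
theorem chk_97 : chk2 F 5 97 = true := by decide +kernel
theorem chk_98 : chk2 F 5 98 = true := by decide +kernel

end Pool.Agent.H95.FiveX.Tab
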