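import Pool.Agent.H95.FiveX.Check
import Pool.Agent.H95.FiveX.TabRun0
import Pool.Agent.H95.FiveX.TabRun1
import Pool.Agent.H95.FiveX.TabRun2
import Pool.Agent.H95.FiveX.TabRun3
import Pool.Agent.H95.FiveX.TabRun4
import Pool.Agent.H95.FiveX.TabRun5
import Pool.Agent.H95.FiveX.TabRun6
import Pool.Agent.H95.FiveX.TabRun7
import Pool.Agent.H95.FiveX.TabRun8
import Pool.Agent.H95.FiveX.TabRun9
import Pool.Agent.H95.FiveX.TabRun10
import Pool.Agent.H95.FiveX.TabRun11

/-!
# The lower bound with exponent `0.463`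
-/

namespace Pool.Agent.H95.FiveX

lemma rat_le {a b B D : ℕ} (ha : 0 < a) (hb : 0 < b) (hD : 0 < D)
    (h : B ^ 1000 * a ^ 463 ≤ D ^ 1000 * b ^ 463) :
    (B : ℝ) / D ≤ ((a : ℝ) / b) ^ (-(463 / 1000) : ℝ) := by
  have haR : (0 : ℝ) < a := by exact_mod_cast ha
  have hbR : (0 : ℝ) < b := by exact_mod_cast hb
  have hDR : (0 : ℝ) < D := by exact_mod_cast hD
  have hx : (0 : ℝ) < (a : ℝ) / b := by positivity
  apply le_of_pow_le_pow_left₀ (n := 1000) (by norm_num) (by positivity)
  have e : (((a : ℝ) / b) ^ (-(463 / 1000) : ℝ)) ^ 1000 = (((a : ℝ) / b) ^ 463)⁻¹ := by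
    rw [← Real.rpow_natCast (((a : ℝ) / b) ^ (-(463 / 1000) : ℝ)) 1000, ← Real.rpow_mul hx.le,
      ← Real.rpow_natCast _ 463, ← Real.rpow_neg hx.le]
    congr 1
    norm_num
  rw [e, div_pow, div_pow, inv_div, div_le_div_iff₀ (by positivity) (by positivity)]
  have h' : ((B : ℝ) ^ 1000 * (a : ℝ) ^ 463) ≤ (D : ℝ) ^ 1000 * (b : ℝ) ^ 463 := by
    exact_mod_cast h
  linarith

theorem tab_blocks (q : ℕ) (hq : q < 125) : chk2 Tab.F 5 q = true := by
  interval_cases q
  · exact Tab.chk_0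
  · exact Tab.chk_1
  · exact Tab.chk_2
  · exact Tab.chk_3
  · exact Tab.chk_4
  · exact Tab.chk_5
  · exact Tab.chk_6
  · exact Tab.chk_7
  · exact Tab.chk_8
  · exact Tab.chk_9
  · exact Tab.chk_10
  · exact Tab.chk_11
  · exact Tab.chk_12
  · exact Tab.chk_13
  · exact Tab.chk_14
  · exact Tab.chk_15
  · exact Tab.chk_16
  · exact Tab.chk_17
  · exact Tab.chk_18
  · exact Tab.chk_19
  · exact Tab.chk_20
  · exact Tab.chk_21
  · exact Tab.chk_22
  · exact Tab.chk_23
  · exact Tab.chk_24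
  · exact Tab.chk_25
  · exact Tab.chk_26
  · exact Tab.chk_27
  · exact Tab.chk_28
  · exact Tab.chk_29
  · exact Tab.chk_30
  · exact Tab.chk_31
  · exact Tab.chk_32
  · exact Tab.chk_33
  · exact Tab.chk_34
  · exact Tab.chk_35
  · exact Tab.chk_36
  · exact Tab.chk_37
  · exact Tab.chk_38
  · exact Tab.chk_39
  · exact Tab.chk_40
  · exact Tab.chk_41
  · exact Tab.chk_42
  · exact Tab.chk_43
  · exact Tab.chk_44
  · exact Tab.chk_45
  · exact Tab.chk_46
  · exact Tab.chk_47
  · exact Tab.chk_48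
  · exact Tab.chk_49
  · exact Tab.chk_50
  · exact Tab.chk_51
  · exact Tab.chk_52
  · exact Tab.chk_53
  · exact Tab.chk_54
  · exact Tab.chk_55
  · exact Tab.chk_56
  · exact Tab.chk_57
  · exact Tab.chk_58
  · exact Tab.chk_59
  · exact Tab.chk_60
  · exact Tab.chk_61
  · exact Tab.chk_62
  · exact Tab.chk_63
  · exact Tab.chk_64
  · exact Tab.chk_65
  · exact Tab.chk_66
  · exact Tab.chk_67
  · exact Tab.chk_68
  · exact Tab.chk_69
  · exact Tab.chk_70
  · exact Tab.chk_71
  · exact Tab.chk_72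
  · exact Tab.chk_73
  · exact Tab.chk_74
  · exact Tab.chk_75
  · exact Tab.chk_76
  · exact Tab.chk_77
  · exact Tab.chk_78
  · exact Tab.chk_79
  · exact Tab.chk_80
  · exact Tab.chk_81
  · exact Tab.chk_82
  · exact Tab.chk_83
  · exact Tab.chk_84
  · exact Tab.chk_85
  · exact Tab.chk_86
  · exact Tab.chk_87
  · exact Tab.chk_88
  · exact Tab.chk_89
  · exact Tab.chk_90
  · exact Tab.chk_91
  · exact Tab.chk_92
  · exact Tab.chk_93
  · exact Tab.chk_94
  · exact Tab.chk_95
  · exact Tab.chk_96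
  · exact Tab.chk_97
  · exact Tab.chk_98
  · exact Tab.chk_99
  · exact Tab.chk_100
  · exact Tab.chk_101
  · exact Tab.chk_102
  · exact Tab.chk_103
  · exact Tab.chk_104
  · exact Tab.chk_105
  · exact Tab.chk_106
  · exact Tab.chk_107
  · exact Tab.chk_108
  · exact Tab.chk_109
  · exact Tab.chk_110
  · exact Tab.chk_111
  · exact Tab.chk_112
  · exact Tab.chk_113
  · exact Tab.chk_114
  · exact Tab.chk_115
  · exact Tab.chk_116
  · exact Tab.chk_117
  · exact Tab.chk_118
  · exact Tab.chk_119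
  · exact Tab.chk_120
  · exact Tab.chk_121
  · exact Tab.chk_122
  · exact Tab.chk_123
  · exact Tab.chk_124

theorem tab_all : ∀ i, i < 5 ^ 8 → Tab.F i = true := by
  apply all_of_blocks Tab.F 3 5
  intro q hq
  exact tab_blocks q (by norm_num at hq; exact hq)

theorem lower_bound : ∃ c : ℝ, 0 < c ∧ ∀ x : ℝ, 1 ≤ x → c * x ^ (463 / 1000 : ℝ) ≤ R1 x := by
  have C := cert_of_chk (K := 8) (by norm_num) (by norm_num) (by norm_num) tab_all
  refine bound_of_cert (K := 8) (by norm_num) (by norm_num) C (by norm_num) ?_ ?_ ?_ ?_ ?_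
  · simpa using rat_le (a := 16) (b := 1) (B := 277008) (D := 1000000) (by norm_num) (by norm_num)
      (by norm_num) (by decide +kernel)
  · simpa using rat_le (a := 2) (b := 5) (B := 1528432) (D := 1000000) (by norm_num) (by norm_num)
      (by norm_num) (by decide +kernel)
  · simpa using rat_le (a := 4) (b := 5) (B := 1108841) (D := 1000000) (by norm_num) (by norm_num)
      (by norm_num) (by decide +kernel)
  · simpa using rat_le (a := 8) (b := 5) (B := 804437) (D := 1000000) (by norm_num) (by norm_num)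
      (by norm_num) (by decide +kernel)
  · simpa using rat_le (a := 16) (b := 5) (B := 583600) (D := 1000000) (by norm_num) (by norm_num)
      (by norm_num) (by decide +kernel)

end Pool.Agent.H95.FiveX
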