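import Mathlib

/-!
# Backward orbits of the `5x+1` map and a weighted count of them
-/

namespace Pool.Agent.H95.FiveX

/-- The `5x+1` map on the integers: `(5x+1)/2` at odd `x`, and `x/2` at even `x`. -/
def T5 (x : ℤ) : ℤ := if x % 2 = 1 then (5 * x + 1) / 2 else x / 2

/-- The orbit of `n` under `T5` takes only finitely many values. -/
def EvPer (n : ℤ) : Prop := (Set.range fun k : ℕ => T5^[k] n).Finite

/-- The number of integers `1 ≤ n ≤ x` whose `T5`-orbit is eventually periodic. -/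
noncomputable def Q5 (x : ℝ) : ℕ := Set.ncard {n : ℤ | 1 ≤ n ∧ (n : ℝ) ≤ x ∧ EvPer n}

/-- The number of integers `1 ≤ n ≤ x` whose `T5`-orbit reaches `1`. -/
noncomputable def R1 (x : ℝ) : ℕ := Set.ncard {n : ℤ | 1 ≤ n ∧ (n : ℝ) ≤ x ∧ ∃ k : ℕ, T5^[k] n = 1}

lemma T5_odd {x : ℤ} (h : x % 2 = 1) : T5 x = (5 * x + 1) / 2 := by simp [T5, h]

lemma T5_even (x : ℤ) : T5 (2 * x) = x := by
  have h : (2 * x) % 2 ≠ 1 := by omega
  simp [T5]

lemma evPer_one : EvPer 1 := by
  have hstep : ∀ k : ℕ, T5^[k] (1 : ℤ) ∈ ({1, 3, 8, 4, 2} : Set ℤ) := by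
    intro k
    induction k with
    | zero => simp
    | succ k ih =>
      rw [Function.iterate_succ_apply']
      rcases ih with h | h | h | h | h <;>
        · rw [h]; simp [T5]
  refine Set.Finite.subset (s := ({1, 3, 8, 4, 2} : Set ℤ)) (by simp) ?_
  rintro _ ⟨k, rfl⟩
  exact hstep k

lemma evPer_of_iterate {n : ℤ} {k : ℕ} (h : EvPer (T5^[k] n)) : EvPer n := by
  unfold EvPer at h ⊢
  refine Set.Finite.subset (s := (fun i : ℕ => T5^[i] n) '' (Set.Iio k) ∪
    Set.range fun i : ℕ => T5^[i] (T5^[k] n)) ((Set.finite_Iio k).image _ |>.union h) ?_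
  rintro _ ⟨i, rfl⟩
  by_cases hi : i < k
  · exact Or.inl ⟨i, hi, rfl⟩
  · refine Or.inr ⟨i - k, ?_⟩
    simp only
    rw [← Function.iterate_add_apply]
    congr 1
    omega

/-- `m` reaches `128`. -/
def InB (m : ℕ) : Prop := ∃ k : ℕ, T5^[k] (m : ℤ) = 128

lemma InB.evPer {m : ℕ} (h : InB m) : EvPer (m : ℤ) := by
  obtain ⟨k, hk⟩ := h
  apply evPer_of_iterate (k := k)
  rw [hk]
  apply evPer_of_iterate (k := 7)
  have : T5^[7] (128 : ℤ) = 1 := by
    simp [Function.iterate_succ_apply, T5]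
  rw [this]
  exact evPer_one

lemma InB.reach {m : ℕ} (h : InB m) : ∃ k : ℕ, T5^[k] (m : ℤ) = 1 := by
  obtain ⟨k, hk⟩ := h
  refine ⟨7 + k, ?_⟩
  rw [Function.iterate_add_apply, hk]
  simp [Function.iterate_succ_apply, T5]

lemma not_inB_eight : ¬ InB 8 := by
  rintro ⟨k, hk⟩
  have hstep : ∀ k : ℕ, T5^[k] (8 : ℤ) ∈ ({1, 3, 8, 4, 2} : Set ℤ) := by
    intro k
    induction k with
    | zero => simp
    | succ k ih =>
      rw [Function.iterate_succ_apply']
      rcases ih with h | h | h | h | h <;>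
        · rw [h]; simp [T5]
  have h8 : T5^[k] (8 : ℤ) ∈ ({1, 3, 8, 4, 2} : Set ℤ) := hstep k
  have hk' : T5^[k] (8 : ℤ) = 128 := by exact_mod_cast hk
  rw [hk'] at h8
  simp at h8

lemma inB_128 : InB 128 := ⟨0, by simp⟩

lemma InB.of_step {m n : ℕ} (k : ℕ) (h : InB n) (hk : T5^[k] (m : ℤ) = n) : InB m := by
  obtain ⟨j, hj⟩ := h
  refine ⟨j + k, ?_⟩
  rw [Function.iterate_add_apply, hk, hj]

lemma InB.sixteen {n : ℕ} (h : InB n) : InB (16 * n) := by
  refine h.of_step 4 ?_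
  have e : ((16 * n : ℕ) : ℤ) = 2 * (2 * (2 * (2 * (n : ℤ)))) := by push_cast; ring
  rw [e]
  simp only [Function.iterate_succ_apply, Function.iterate_zero, id, T5_even]

/-- The second child of `n ≡ 3 (mod 5)` in the backward tree (`0` if there is none). -/
def side (n : ℕ) : ℕ :=
  let y := (2 * n - 1) / 5
  if y % 5 = 0 then 0 else if y % 5 = 1 then 8 * y else if y % 5 = 2 then 4 * y
    else if y % 5 = 3 then y else 2 * y

lemma side_spec {n : ℕ} (hn : n % 5 = 3) :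
    ∃ y : ℕ, 2 * n = 5 * y + 1 ∧ y % 2 = 1 ∧
      side n = (if y % 5 = 0 then 0 else if y % 5 = 1 then 8 * y else if y % 5 = 2 then 4 * y
        else if y % 5 = 3 then y else 2 * y) := by
  refine ⟨(2 * n - 1) / 5, ?_, ?_, rfl⟩ <;> omega

lemma T5_y {n y : ℕ} (h : 2 * n = 5 * y + 1) (hy : y % 2 = 1) : T5 (y : ℤ) = n := by
  rw [T5_odd (by omega)]
  omega

lemma InB.side {n : ℕ} (h : InB n) (hn : n % 5 = 3) (h0 : side n ≠ 0) : InB (side n) := by
  obtain ⟨y, h1, h2, h3⟩ := side_spec hn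
  have hy : InB y := h.of_step 1 (by simpa using T5_y h1 h2)
  rw [h3] at h0 ⊢
  split_ifs at h0 ⊢ with a b c d
  · exact absurd rfl h0
  · refine hy.of_step 3 ?_
    have e : ((8 * y : ℕ) : ℤ) = 2 * (2 * (2 * (y : ℤ))) := by push_cast; ring
    rw [e]
    simp only [Function.iterate_succ_apply, Function.iterate_zero, id, T5_even]
  · refine hy.of_step 2 ?_
    have e : ((4 * y : ℕ) : ℤ) = 2 * (2 * (y : ℤ)) := by push_cast; ring
    rw [e]
    simp only [Function.iterate_succ_apply, Function.iterate_zero, id, T5_even]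
  · exact hy
  · refine hy.of_step 1 ?_
    have e : ((2 * y : ℕ) : ℤ) = 2 * (y : ℤ) := by push_cast; ring
    rw [e]
    simp only [Function.iterate_succ_apply, Function.iterate_zero, id, T5_even]

lemma side_mod {n : ℕ} (hn : n % 5 = 3) (h0 : side n ≠ 0) : side n % 5 = 3 := by
  obtain ⟨y, h1, h2, h3⟩ := side_spec hn
  rw [h3] at h0 ⊢
  split_ifs at h0 ⊢ <;> omega

lemma side_le {n : ℕ} (hn : n % 5 = 3) : side n ≤ 16 * n := by
  obtain ⟨y, h1, h2, h3⟩ := side_spec hn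
  rw [h3]
  split_ifs <;> omega

lemma side_inj {n m : ℕ} (hn : n % 5 = 3) (hm : m % 5 = 3) (h0 : side n ≠ 0)
    (h : side n = side m) : n = m := by
  obtain ⟨y, h1, h2, h3⟩ := side_spec hn
  obtain ⟨z, k1, k2, k3⟩ := side_spec hm
  rw [h3] at h h0
  rw [k3] at h
  split_ifs at h h0 <;> omega

lemma side_ne_sixteen {n m : ℕ} (hn : n % 5 = 3) (h0 : side n ≠ 0) : side n ≠ 16 * m := by
  obtain ⟨y, h1, h2, h3⟩ := side_spec hn
  rw [h3] at h0 ⊢
  split_ifs at h0 ⊢ <;> omega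

/-- The weighted counting principle on the backward tree of `128`. -/
theorem count_principle (h : ℕ → ℝ) (hnn : ∀ n, 0 ≤ h n) (h0 : h 0 = 0)
    (hsub : ∀ n : ℕ, n % 5 = 3 → h n ≤ h (16 * n) + h (side n))
    (N : ℕ) (hN : 128 ≤ N) (b : ℝ) (hb : ∀ n : ℕ, N < n → n % 5 = 3 → h n ≤ b) :
    ∃ E : Finset ℕ, (∀ m ∈ E, 1 ≤ m ∧ m ≤ 16 * N ∧ InB m) ∧ h 128 ≤ E.card * b := by
  classical
  set S : Finset ℕ := (Finset.range (N + 1)).filter (fun n => n % 5 = 3 ∧ InB n) with hS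
  have memS : ∀ n, n ∈ S ↔ n ≤ N ∧ n % 5 = 3 ∧ InB n := by
    intro n; simp [hS]
  set S2 : Finset ℕ := S.filter (fun n => side n ≠ 0) with hS2
  set C1 : Finset ℕ := S.image (fun n => 16 * n) with hC1
  set C2 : Finset ℕ := S2.image side with hC2
  have hdisj : Disjoint C1 C2 := by
    rw [Finset.disjoint_left]
    intro a ha hb'
    simp only [hC1, hC2, Finset.mem_image] at ha hb'
    obtain ⟨n, _, rfl⟩ := ha
    obtain ⟨m, hm, hm2⟩ := hb'
    simp only [hS2, Finset.mem_filter] at hm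
    exact side_ne_sixteen ((memS m).1 hm.1).2.1 hm.2 hm2
  have sum1 : ∑ n ∈ S, h (16 * n) = ∑ m ∈ C1, h m := by
    rw [hC1, Finset.sum_image]
    intro a _ b _ hab
    simpa using hab
  have sum2 : ∑ n ∈ S, h (side n) = ∑ m ∈ C2, h m := by
    have e1 : ∑ m ∈ C2, h m = ∑ n ∈ S2, h (side n) := by
      rw [hC2, Finset.sum_image]
      intro a ha b hb' hab
      simp only [hS2, Finset.coe_filter, Set.mem_ofPred_eq] at ha hb'
      exact side_inj ((memS a).1 ha.1).2.1 ((memS b).1 hb'.1).2.1 ha.2 hab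
    have e2 : ∑ n ∈ S2, h (side n) = ∑ n ∈ S, h (side n) := by
      apply Finset.sum_filter_of_ne
      intro n _ hne hz
      rw [hz, h0] at hne
      exact hne rfl
    rw [e1, e2]
  have hsum : ∑ n ∈ S, h n ≤ ∑ m ∈ C1 ∪ C2, h m := by
    rw [Finset.sum_union hdisj, ← sum1, ← sum2, ← Finset.sum_add_distrib]
    exact Finset.sum_le_sum fun n hn => hsub n ((memS n).1 hn).2.1
  set U := C1 ∪ C2 with hU
  have memU : ∀ m ∈ U, m % 5 = 3 ∧ InB m ∧ m ≤ 16 * N ∧ m ≠ 128 := by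
    intro m hm
    rw [hU, Finset.mem_union] at hm
    rcases hm with hm | hm
    · simp only [hC1, Finset.mem_image] at hm
      obtain ⟨n, hn, rfl⟩ := hm
      obtain ⟨a, b', c⟩ := (memS n).1 hn
      refine ⟨by omega, c.sixteen, by omega, ?_⟩
      intro h8
      have : n = 8 := by omega
      subst this
      exact not_inB_eight c
    · simp only [hC2, Finset.mem_image] at hm
      obtain ⟨n, hn, rfl⟩ := hm
      simp only [hS2, Finset.mem_filter] at hn
      obtain ⟨a, b', c⟩ := (memS n).1 hn.1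
      refine ⟨side_mod b' hn.2, c.side b' hn.2, (side_le b').trans (by omega), ?_⟩
      exact side_ne_sixteen (m := 8) b' hn.2
  have h128 : 128 ∈ S := (memS 128).2 ⟨hN, by norm_num, inB_128⟩
  have hsplit : ∑ m ∈ U, h m = ∑ m ∈ U \ S, h m + ∑ m ∈ U ∩ S, h m := by
    rw [add_comm]
    exact (Finset.sum_inter_add_sum_sdiff U S h).symm
  have hin : ∑ m ∈ U ∩ S, h m ≤ ∑ m ∈ S.erase 128, h m := by
    apply Finset.sum_le_sum_of_subset_of_nonneg
    · intro m hm
      rw [Finset.mem_inter] at hm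
      rw [Finset.mem_erase]
      exact ⟨(memU m hm.1).2.2.2, hm.2⟩
    · intro m _ _; exact hnn m
  have herase : ∑ m ∈ S.erase 128, h m + h 128 = ∑ m ∈ S, h m :=
    Finset.sum_erase_add S h h128
  have hle : h 128 ≤ ∑ m ∈ U \ S, h m := by linarith
  refine ⟨U \ S, ?_, hle.trans ?_⟩
  · intro m hm
    rw [Finset.mem_sdiff] at hm
    obtain ⟨a, b', c, d⟩ := memU m hm.1
    exact ⟨by omega, c, b'⟩
  · have := Finset.sum_le_card_nsmul (U \ S) h b (by
      intro m hm
      rw [Finset.mem_sdiff] at hm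
      obtain ⟨a, b', c, d⟩ := memU m hm.1
      apply hb m _ a
      by_contra hcon
      exact hm.2 ((memS m).2 ⟨by omega, a, b'⟩))
    simpa [nsmul_eq_mul] using this

end Pool.Agent.H95.FiveX
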